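import Mathlib

set_option autoImplicit false

/-!
# The E-sequence with 2s at the perfect squares is Ω-divergent

Let `x` be an odd positive integer with this E-sequence and `x_n` the odd terms of its trajectory. Then
`x_(k²) + 1 = 2 * 4 ^ k * W_k` for `k ≥ 2` with integers `W_k` such that
`4 ^ (k + 2) W_(k+1) = 3 ^ (2 k + 1) W_k + 1`. Starting from `V_0 = W`, the numbers
`V_(N+1) (m) = (9 ^ (N + 1) V_N (m) - V_N (m - 1)) / 4 ^ (m + 1)` are odd integers (they come from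
the Padé approximations of the Tschakaloff function `∑ q ^ (n (n-1) / 2) x ^ n` at `q = 4/9`), but
`V_N (2 N)` tends to zero, because `3 ^ 5 < 2 ^ 8`.
-/

namespace Pool.Agent.Results.MP_106823_nt.SquaresDivergent

/-- The step `x_(n-1) ↦ x_n`: `3 x + 1` divided by the largest power of `2` dividing it. -/
def S (x : ℕ) : ℕ := (3 * x + 1) / 2 ^ padicValNat 2 (3 * x + 1)

/-- The sequence `(a_n)`, `n ≥ 1`, is the E-sequence of `x`: `a_n` is the exponent of `2` in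
`3 x_(n-1) + 1`, where `x_n = S^n x`. -/
def IsESeq (a : ℕ → ℕ) (x : ℕ) : Prop := ∀ n, 1 ≤ n → a n = padicValNat 2 (3 * S^[n - 1] x + 1)

open Classical in
/-- `q_n = 2` if `n` is one of `2², 3², 4², ...` and `q_n = 1` otherwise. -/
noncomputable def q (n : ℕ) : ℕ := if ∃ k, 2 ≤ k ∧ n = k ^ 2 then 2 else 1

/-! ### proofs -/

/-- the step of the induction: divisibility -/
theorem step_div (N : ℕ) (U : ℕ → ℤ)
    (h : ∀ i, 4 ^ (N + 4 + i) * (4 ^ (N + 1) * U (i + 2) - U (i + 1)) =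
      3 ^ (2 * i + 5) * (9 ^ (N + 1) * U (i + 1) - U i)) :
    ∃ U' : ℕ → ℤ, (∀ i, 4 ^ (N + 4 + i) * U' i = 9 ^ (N + 1) * U (i + 1) - U i) ∧
      (∀ i, 3 ^ (2 * i + 5) * U' i = 4 ^ (N + 1) * U (i + 2) - U (i + 1)) := by
  have hd : ∀ i, (4 : ℤ) ^ (N + 4 + i) ∣ 9 ^ (N + 1) * U (i + 1) - U i := by
    intro i
    have h1 : (4 : ℤ) ^ (N + 4 + i) ∣ 3 ^ (2 * i + 5) * (9 ^ (N + 1) * U (i + 1) - U i) :=
      ⟨_, (h i).symm⟩
    refine IsCoprime.dvd_of_dvd_mul_left ?_ h1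
    exact IsCoprime.pow (by norm_num)
  choose U' hU' using hd
  refine ⟨U', fun i => (hU' i).symm, fun i => ?_⟩
  have h1 := h i
  rw [hU' i] at h1
  have h2 : (4 : ℤ) ^ (N + 4 + i) ≠ 0 := by positivity
  apply mul_left_cancel₀ h2
  rw [h1]; ring

/-- the step of the induction: the relation for the next sequence -/
theorem step_rel (N : ℕ) (U U' : ℕ → ℤ)
    (hA : ∀ i, 4 ^ (N + 4 + i) * U' i = 9 ^ (N + 1) * U (i + 1) - U i)
    (hB : ∀ i, 3 ^ (2 * i + 5) * U' i = 4 ^ (N + 1) * U (i + 2) - U (i + 1)) (i : ℕ) :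
    4 ^ (N + 1 + 4 + i) * (4 ^ (N + 1 + 1) * U' (i + 2) - U' (i + 1)) =
      3 ^ (2 * i + 5) * (9 ^ (N + 1 + 1) * U' (i + 1) - U' i) := by
  have a2 := hA (i + 2)
  have a1 := hA (i + 1)
  have b1 := hB (i + 1)
  have b0 := hB i
  have e1 : (4 : ℤ) ^ (N + 1 + 4 + i) * (4 ^ (N + 1 + 1) * U' (i + 2) - U' (i + 1)) =
      4 ^ (N + 1) * (4 ^ (N + 4 + (i + 2)) * U' (i + 2)) - 4 ^ (N + 4 + (i + 1)) * U' (i + 1) := by ring
  have e2 : (3 : ℤ) ^ (2 * i + 5) * (9 ^ (N + 1 + 1) * U' (i + 1) - U' i) =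
      9 ^ (N + 1) * (3 ^ (2 * (i + 1) + 5) * U' (i + 1)) - 3 ^ (2 * i + 5) * U' i := by ring
  rw [e1, e2, a2, a1, b1, b0]
  ring

/-- the integers `V_N` -/
theorem exists_V (W : ℕ → ℤ) (hW : ∀ k, 2 ≤ k → 4 ^ (k + 2) * W (k + 1) = 3 ^ (2 * k + 1) * W k + 1)
    (ω : ℕ → ℝ) (hω : Monotone ω) (hω0 : ∀ m, 0 ≤ ω m) (hWω : ∀ m, 2 ≤ m → |(W m : ℝ)| ≤ ω m) (N : ℕ) :
    ∃ U : ℕ → ℤ, (∀ i, 4 ^ (N + 4 + i) * (4 ^ (N + 1) * U (i + 2) - U (i + 1)) =
        3 ^ (2 * i + 5) * (9 ^ (N + 1) * U (i + 1) - U i)) ∧ (∀ i, U i % 2 = 1) ∧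
      (∀ i, |(U i : ℝ)| ≤ 2 ^ N * 3 ^ (N * (N + 1)) * ω (N + 2 + i) / 4 ^ (N * (N + 3 + i))) := by
  induction N with
  | zero =>
    refine ⟨fun i => W (i + 2), fun i => ?_, fun i => ?_, fun i => ?_⟩
    · have h1 := hW (i + 2) (by omega)
      have h2 := hW (i + 3) (by omega)
      simp only [zero_add, pow_one]
      have e1 : (4 : ℤ) ^ (4 + i) * (4 * W (i + 2 + 2) - W (i + 1 + 2)) =
          (4 ^ (i + 3 + 2) * W (i + 3 + 1)) - 4 ^ (i + 2 + 2) * W (i + 2 + 1) := by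
        have : (4 : ℤ) ^ (i + 3 + 2) = 4 ^ (4 + i) * 4 := by ring
        rw [this]
        have : (4 : ℤ) ^ (i + 2 + 2) = 4 ^ (4 + i) := by ring
        rw [this]
        have e3 : i + 2 + 2 = i + 3 + 1 := by ring
        have e4 : i + 1 + 2 = i + 2 + 1 := by ring
        rw [e3, e4]
        ring
      rw [e1, h1, h2]
      have e5 : i + 1 + 2 = i + 3 := by ring
      rw [e5]
      ring
    · have h1 := hW (i + 2) (by omega)
      by_contra hcon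
      have h2 : W (i + 2) % 2 = 0 := by
        have hcon' : ¬ W (i + 2) % 2 = 1 := hcon
        omega
      obtain ⟨t, ht⟩ : ∃ t, W (i + 2) = 2 * t := ⟨W (i + 2) / 2, by omega⟩
      rw [ht] at h1
      have e1 : (4 : ℤ) ^ (i + 2 + 2) * W (i + 2 + 1) = 2 * (2 * 4 ^ (i + 3) * W (i + 2 + 1)) := by ring
      have e2 : (3 : ℤ) ^ (2 * (i + 2) + 1) * (2 * t) + 1 = 2 * (3 ^ (2 * (i + 2) + 1) * t) + 1 := by ring
      rw [e1, e2] at h1
      omega
    · have h1 := hWω (i + 2) (by omega)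
      simp only [pow_zero, zero_mul, div_one, mul_one, one_mul]
      have e : 0 + 2 + i = i + 2 := by ring
      rw [e]
      exact h1
  | succ N ih =>
    obtain ⟨U, h1, h2, h3⟩ := ih
    obtain ⟨U', hA, hB⟩ := step_div N U h1
    refine ⟨U', step_rel N U U' hA hB, fun i => ?_, fun i => ?_⟩
    · -- parity
      have hb := hB i
      have h4 := h2 (i + 1)
      by_contra hcon
      obtain ⟨t, ht⟩ : ∃ t, U' i = 2 * t := ⟨U' i / 2, by omega⟩
      rw [ht] at hb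
      have e1 : (3 : ℤ) ^ (2 * i + 5) * (2 * t) = 2 * (3 ^ (2 * i + 5) * t) := by ring
      have e2 : (4 : ℤ) ^ (N + 1) * U (i + 2) = 2 * (2 * 4 ^ N * U (i + 2)) := by ring
      rw [e1, e2] at hb
      omega
    · -- size
      have ha : ((4 : ℝ) ^ (N + 4 + i)) * (U' i : ℝ) = 9 ^ (N + 1) * (U (i + 1) : ℝ) - (U i : ℝ) := by
        exact_mod_cast hA i
      have b1 := h3 (i + 1)
      have b0 := h3 i
      have hm : ω (N + 2 + i) ≤ ω (N + 1 + 2 + i) := hω (by omega)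
      have e1 : N + 2 + (i + 1) = N + 1 + 2 + i := by ring
      rw [e1] at b1
      set Ω : ℝ := ω (N + 1 + 2 + i) with hΩ
      have hΩ0 : 0 ≤ Ω := hω0 _
      set K : ℝ := 2 ^ N * 3 ^ (N * (N + 1)) with hK
      have hK0 : 0 < K := by positivity
      set D : ℝ := 4 ^ (N * (N + 4 + i)) with hD
      have hD0 : 0 < D := by positivity
      have eD : (4 : ℝ) ^ (N * (N + 3 + (i + 1))) = D := by
        rw [hD]; congr 1; ring
      have eD2 : D = 4 ^ N * (4 : ℝ) ^ (N * (N + 3 + i)) := by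
        rw [hD, ← pow_add]; congr 1; ring
      rw [eD] at b1
      have b0' : |(U i : ℝ)| ≤ K * (4 ^ N * Ω) / D := by
        refine b0.trans ?_
        rw [eD2, div_le_div_iff₀ (by positivity) (by positivity)]
        have : K * ω (N + 2 + i) * (4 ^ N * (4 : ℝ) ^ (N * (N + 3 + i))) =
            (K * (4 ^ N * ω (N + 2 + i))) * (4 : ℝ) ^ (N * (N + 3 + i)) := by ring
        rw [this]
        apply mul_le_mul_of_nonneg_right _ (by positivity)
        apply mul_le_mul_of_nonneg_left _ hK0.le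
        exact mul_le_mul_of_nonneg_left hm (by positivity)
      have h49 : (4 : ℝ) ^ N ≤ 9 ^ (N + 1) := by
        calc (4 : ℝ) ^ N ≤ 9 ^ N := pow_le_pow_left₀ (by norm_num) (by norm_num) _
          _ ≤ 9 ^ (N + 1) := pow_le_pow_right₀ (by norm_num) (by omega)
      have h5 : (4 : ℝ) ^ (N + 4 + i) * |(U' i : ℝ)| ≤ 9 ^ (N + 1) * (K * Ω / D) + K * (9 ^ (N + 1) * Ω) / D := by
        have h6 : (4 : ℝ) ^ (N + 4 + i) * |(U' i : ℝ)| = |9 ^ (N + 1) * (U (i + 1) : ℝ) - (U i : ℝ)| := by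
          rw [← ha, abs_mul, abs_of_pos (by positivity : (0 : ℝ) < 4 ^ (N + 4 + i))]
        rw [h6]
        refine (abs_sub _ _).trans (add_le_add ?_ ?_)
        · rw [abs_mul, abs_of_pos (by positivity : (0 : ℝ) < 9 ^ (N + 1))]
          exact mul_le_mul_of_nonneg_left b1 (by positivity)
        · refine b0'.trans ?_
          apply div_le_div_of_nonneg_right _ hD0.le
          apply mul_le_mul_of_nonneg_left _ hK0.le
          exact mul_le_mul_of_nonneg_right h49 hΩ0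
      have h7 : |(U' i : ℝ)| ≤ (9 ^ (N + 1) * (K * Ω / D) + K * (9 ^ (N + 1) * Ω) / D) / 4 ^ (N + 4 + i) := by
        rw [le_div_iff₀ (by positivity), mul_comm]; exact h5
      refine h7.trans (le_of_eq ?_)
      have e9 : (9 : ℝ) = 3 ^ 2 := by norm_num
      have eDD : (4 : ℝ) ^ ((N + 1) * (N + 1 + 3 + i)) = D * 4 ^ (N + 4 + i) := by
        rw [hD, ← pow_add]; congr 1; ring
      have e3 : (3 : ℝ) ^ ((N + 1) * (N + 1 + 1)) = 3 ^ (N * (N + 1)) * 9 ^ (N + 1) := by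
        rw [e9, ← pow_mul, ← pow_add]; congr 1; ring
      rw [eDD, e3, hK, pow_succ (2 : ℝ) N]
      field_simp
      ring

/-- the recursion has no solution in integers -/
theorem no_solution (W : ℕ → ℤ)
    (hW : ∀ k, 2 ≤ k → 4 ^ (k + 2) * W (k + 1) = 3 ^ (2 * k + 1) * W k + 1) : False := by
  -- the majorant
  set C : ℝ := 2 ^ 8 * (|(W 2 : ℝ)| + 1) with hC
  have hC0 : 0 < C := by positivity
  set g : ℕ → ℝ := fun m => C * 3 ^ (m ^ 2) / 2 ^ (m ^ 2 + 2 * m) with hg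
  have hg_succ : ∀ m, g (m + 1) = g m * (3 ^ (2 * m + 1) / 2 ^ (2 * m + 3)) := by
    intro m
    simp only [hg]
    have e1 : (3 : ℝ) ^ ((m + 1) ^ 2) = 3 ^ (m ^ 2) * 3 ^ (2 * m + 1) := by
      rw [← pow_add]; congr 1; ring
    have e2 : (2 : ℝ) ^ ((m + 1) ^ 2 + 2 * (m + 1)) = 2 ^ (m ^ 2 + 2 * m) * 2 ^ (2 * m + 3) := by
      rw [← pow_add]; congr 1; ring
    rw [e1, e2]
    field_simp
  have hg0 : ∀ m, 0 < g m := fun m => by simp only [hg]; positivity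
  have hgmono : ∀ m, 2 ≤ m → g m ≤ g (m + 1) := by
    intro m hm
    rw [hg_succ]
    have h1 : (2 : ℝ) ^ (2 * m + 3) ≤ 3 ^ (2 * m + 1) := by
      have h2 : ∀ j : ℕ, (2 : ℝ) ^ (2 * (j + 2) + 3) ≤ 3 ^ (2 * (j + 2) + 1) := by
        intro j
        induction j with
        | zero => norm_num
        | succ j ih =>
          have e1 : (2 : ℝ) ^ (2 * (j + 1 + 2) + 3) = 2 ^ (2 * (j + 2) + 3) * 4 := by ring
          have e2 : (3 : ℝ) ^ (2 * (j + 1 + 2) + 1) = 3 ^ (2 * (j + 2) + 1) * 9 := by ring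
          rw [e1, e2]
          have : (0 : ℝ) < 3 ^ (2 * (j + 2) + 1) := by positivity
          nlinarith
      have h3 := h2 (m - 2)
      have e : m - 2 + 2 = m := by omega
      rwa [e] at h3
    have h2 : 1 ≤ (3 : ℝ) ^ (2 * m + 1) / 2 ^ (2 * m + 3) := by
      rw [le_div_iff₀ (by positivity)]; linarith
    nlinarith [hg0 m]
  have hg2 : |(W 2 : ℝ)| + 1 ≤ g 2 := by
    simp only [hg, hC]
    have : (0 : ℝ) ≤ |(W 2 : ℝ)| := abs_nonneg _
    norm_num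
    linarith
  have hg1 : ∀ m, 2 ≤ m → 1 ≤ g m := by
    intro m hm
    induction m, hm using Nat.le_induction with
    | base => linarith [abs_nonneg (W 2 : ℝ)]
    | succ m hm ih => exact ih.trans (hgmono m hm)
  have hWg : ∀ m, 2 ≤ m → |(W m : ℝ)| ≤ g m := by
    intro m hm
    induction m, hm using Nat.le_induction with
    | base => linarith
    | succ m hm ih =>
      have h1 : (4 : ℝ) ^ (m + 2) * (W (m + 1) : ℝ) = 3 ^ (2 * m + 1) * (W m : ℝ) + 1 := by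
        exact_mod_cast hW m hm
      have h2 : (4 : ℝ) ^ (m + 2) * |(W (m + 1) : ℝ)| ≤ 3 ^ (2 * m + 1) * g m + 1 := by
        have h3 : (4 : ℝ) ^ (m + 2) * |(W (m + 1) : ℝ)| = |3 ^ (2 * m + 1) * (W m : ℝ) + 1| := by
          rw [← h1, abs_mul, abs_of_pos (by positivity : (0 : ℝ) < 4 ^ (m + 2))]
        rw [h3]
        refine (abs_add_le _ _).trans ?_
        rw [abs_mul, abs_of_pos (by positivity : (0 : ℝ) < 3 ^ (2 * m + 1)), abs_one]
        have := mul_le_mul_of_nonneg_left ih (by positivity : (0 : ℝ) ≤ 3 ^ (2 * m + 1))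
        linarith
      have h4 : 1 ≤ 3 ^ (2 * m + 1) * g m := by
        have h5 : (1 : ℝ) ≤ 3 ^ (2 * m + 1) := one_le_pow₀ (by norm_num)
        have h6 := hg1 m hm
        nlinarith
      rw [hg_succ]
      have h7 : |(W (m + 1) : ℝ)| ≤ (2 * (3 ^ (2 * m + 1) * g m)) / 4 ^ (m + 2) := by
        rw [le_div_iff₀ (by positivity), mul_comm]
        linarith
      refine h7.trans (le_of_eq ?_)
      have e : (4 : ℝ) ^ (m + 2) = 2 ^ (2 * m + 3) * 2 := by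
        have : (4 : ℝ) = 2 ^ 2 := by norm_num
        rw [this, ← pow_mul, ← pow_succ]; congr 1
      rw [e]
      field_simp
  -- a monotone majorant for all indices
  set ω : ℕ → ℝ := fun m => g (max m 2) with hω
  have hωmono : Monotone ω := by
    apply monotone_nat_of_le_succ
    intro m
    simp only [hω]
    rcases Nat.lt_or_ge m 2 with h | h
    · rw [max_eq_right h.le, max_eq_right (by omega)]
    · rw [max_eq_left h, max_eq_left (by omega)]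
      exact hgmono m h
  have hω0 : ∀ m, 0 ≤ ω m := fun m => (hg0 _).le
  have hWω : ∀ m, 2 ≤ m → |(W m : ℝ)| ≤ ω m := by
    intro m hm
    simp only [hω]
    rw [max_eq_left hm]
    exact hWg m hm
  -- a large `N`
  obtain ⟨N₀, hN₀⟩ := exists_pow_lt_of_lt_one (x := 1 / C) (y := (3 / 32 : ℝ)) (by positivity) (by norm_num)
  set N : ℕ := N₀ + 2 with hN
  obtain ⟨U, -, h2, h3⟩ := exists_V W hW ω hωmono hω0 hWω N
  have h4 := h3 N₀
  have h5 := h2 N₀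
  have h6 : (1 : ℝ) ≤ |(U N₀ : ℝ)| := by
    have : 1 ≤ |U N₀| := Int.one_le_abs (by omega)
    exact_mod_cast this
  have e1 : N + 2 + N₀ = 2 * N := by omega
  have e2 : ω (2 * N) = C * 3 ^ ((2 * N) ^ 2) / 2 ^ ((2 * N) ^ 2 + 2 * (2 * N)) := by
    simp only [hω]
    rw [max_eq_left (by omega)]
  rw [e1, e2] at h4
  have e3 : N + 3 + N₀ = 2 * N + 1 := by omega
  rw [e3] at h4
  have h7 : (2 : ℝ) ^ N * 3 ^ (N * (N + 1)) * (C * 3 ^ ((2 * N) ^ 2) / 2 ^ ((2 * N) ^ 2 + 2 * (2 * N))) /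
      4 ^ (N * (2 * N + 1)) = C * ((243 / 256) ^ (N ^ 2) * (3 / 32) ^ N) := by
    have a1 : (243 : ℝ) = 3 ^ 5 := by norm_num
    have a2 : (256 : ℝ) = 2 ^ 8 := by norm_num
    have a3 : (32 : ℝ) = 2 ^ 5 := by norm_num
    have a4 : (4 : ℝ) = 2 ^ 2 := by norm_num
    rw [a1, a2, a3, a4, div_pow, div_pow, ← pow_mul, ← pow_mul, ← pow_mul, ← pow_mul]
    have a5 : (2 : ℝ) ^ (8 * N ^ 2) * 2 ^ (5 * N) * 2 ^ N =
        2 ^ ((2 * N) ^ 2 + 2 * (2 * N)) * 2 ^ (2 * (N * (2 * N + 1))) := by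
      rw [← pow_add, ← pow_add, ← pow_add]; congr 1; ring
    have a6 : (3 : ℝ) ^ (N * (N + 1)) * 3 ^ ((2 * N) ^ 2) = 3 ^ (5 * N ^ 2) * 3 ^ N := by
      rw [← pow_add, ← pow_add]; congr 1; ring
    rw [div_mul_div_comm, mul_div_assoc', mul_div_assoc', div_div, div_eq_div_iff (by positivity) (by positivity)]
    calc (2 : ℝ) ^ N * 3 ^ (N * (N + 1)) * (C * 3 ^ ((2 * N) ^ 2)) * (2 ^ (8 * N ^ 2) * 2 ^ (5 * N))
        = C * (3 ^ (N * (N + 1)) * 3 ^ ((2 * N) ^ 2)) * (2 ^ (8 * N ^ 2) * 2 ^ (5 * N) * 2 ^ N) := by ring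
      _ = _ := by rw [a5, a6]
  rw [h7] at h4
  have h8 : (243 / 256 : ℝ) ^ (N ^ 2) ≤ 1 := pow_le_one₀ (by norm_num) (by norm_num)
  have h9 : (3 / 32 : ℝ) ^ N ≤ (3 / 32) ^ N₀ := pow_le_pow_of_le_one (by norm_num) (by norm_num) (by omega)
  have h10 : C * ((243 / 256) ^ (N ^ 2) * (3 / 32 : ℝ) ^ N) < 1 := by
    have b1 : (243 / 256 : ℝ) ^ (N ^ 2) * (3 / 32 : ℝ) ^ N ≤ 1 * (3 / 32) ^ N₀ :=
      mul_le_mul h8 h9 (by positivity) (by norm_num)
    rw [one_mul] at b1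
    have b2 : (243 / 256 : ℝ) ^ (N ^ 2) * (3 / 32 : ℝ) ^ N < 1 / C := lt_of_le_of_lt b1 hN₀
    rw [lt_div_iff₀ hC0] at b2
    linarith
  linarith

theorem S_mul (x : ℕ) : 2 ^ padicValNat 2 (3 * x + 1) * S x = 3 * x + 1 :=
  Nat.mul_div_cancel' pow_padicValNat_dvd

theorem q_sq (k : ℕ) (hk : 2 ≤ k) : q (k ^ 2) = 2 := by
  unfold q
  rw [if_pos ⟨k, hk, rfl⟩]

theorem q_between (k j : ℕ) (h1 : 1 ≤ j) (h2 : j ≤ 2 * k) : q (k ^ 2 + j) = 1 := by
  unfold q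
  rw [if_neg]
  rintro ⟨l, -, hl⟩
  have h3 : k ^ 2 < l ^ 2 := by omega
  have h4 : l ^ 2 < (k + 1) ^ 2 := by nlinarith
  have h5 : k < l := lt_of_pow_lt_pow_left₀ 2 (by omega) h3
  have h6 : l < k + 1 := lt_of_pow_lt_pow_left₀ 2 (by omega) h4
  omega

/-- The E-sequence `(q_n)` is Ω-divergent: no odd positive integer has it as its E-sequence. -/
theorem result : ¬ ∃ x : ℕ, x % 2 = 1 ∧ IsESeq q x := by
  rintro ⟨x, hx, hE⟩
  have hrec : ∀ n, 2 ^ q (n + 1) * S^[n + 1] x = 3 * S^[n] x + 1 := by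
    intro n
    have h1 := hE (n + 1) (by omega)
    rw [Nat.add_sub_cancel] at h1
    rw [h1, Function.iterate_succ_apply']
    exact S_mul _
  -- the runs of ones
  have hrun : ∀ k : ℕ, ∀ j ≤ 2 * k, 2 ^ j * (S^[k ^ 2 + j] x + 1) = 3 ^ j * (S^[k ^ 2] x + 1) := by
    intro k j
    induction j with
    | zero => intro _; simp
    | succ j ih =>
      intro hj
      have h1 := ih (by omega)
      have h2 := hrec (k ^ 2 + j)
      have e : k ^ 2 + j + 1 = k ^ 2 + (j + 1) := by ring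
      rw [e, q_between k (j + 1) (by omega) hj, pow_one] at h2
      calc 2 ^ (j + 1) * (S^[k ^ 2 + (j + 1)] x + 1)
          = 2 ^ j * (2 * S^[k ^ 2 + (j + 1)] x + 2) := by ring
        _ = 2 ^ j * (3 * S^[k ^ 2 + j] x + 1 + 2) := by rw [h2]
        _ = 3 * (2 ^ j * (S^[k ^ 2 + j] x + 1)) := by ring
        _ = 3 * (3 ^ j * (S^[k ^ 2] x + 1)) := by rw [h1]
        _ = 3 ^ (j + 1) * (S^[k ^ 2] x + 1) := by ring
  -- the recursion for `Y k = x_(k²) + 1`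
  have hY : ∀ k : ℕ, 2 ≤ k + 1 → 4 ^ (k + 1) * (S^[(k + 1) ^ 2] x + 1) =
      3 ^ (2 * k + 1) * (S^[k ^ 2] x + 1) + 2 * 4 ^ k := by
    intro k hk
    have h1 := hrun k (2 * k) le_rfl
    have h2 := hrec (k ^ 2 + 2 * k)
    have e : k ^ 2 + 2 * k + 1 = (k + 1) ^ 2 := by ring
    rw [e, q_sq (k + 1) hk] at h2
    have e4 : (4 : ℕ) ^ k = 2 ^ (2 * k) := by rw [pow_mul]; norm_num
    calc 4 ^ (k + 1) * (S^[(k + 1) ^ 2] x + 1)
        = 4 ^ k * (2 ^ 2 * S^[(k + 1) ^ 2] x + 4) := by ring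
      _ = 4 ^ k * (3 * S^[k ^ 2 + 2 * k] x + 1 + 4) := by rw [h2]
      _ = 3 * (2 ^ (2 * k) * (S^[k ^ 2 + 2 * k] x + 1)) + 2 * 4 ^ k := by rw [e4]; ring
      _ = 3 * (3 ^ (2 * k) * (S^[k ^ 2] x + 1)) + 2 * 4 ^ k := by rw [h1]
      _ = 3 ^ (2 * k + 1) * (S^[k ^ 2] x + 1) + 2 * 4 ^ k := by ring
  -- divisibility
  have hdiv : ∀ k : ℕ, 4 ^ k ∣ S^[k ^ 2] x + 1 := by
    intro k
    have h1 := hrun k (2 * k) le_rfl
    have h2 : 2 ^ (2 * k) ∣ 3 ^ (2 * k) * (S^[k ^ 2] x + 1) := ⟨_, h1.symm⟩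
    have h3 : Nat.Coprime (2 ^ (2 * k)) (3 ^ (2 * k)) := Nat.Coprime.pow _ _ (by norm_num)
    have h4 := h3.dvd_of_dvd_mul_left h2
    have e4 : (2 : ℕ) ^ (2 * k) = 4 ^ k := by rw [pow_mul]; norm_num
    rwa [e4] at h4
  choose Z hZ using hdiv
  have hZrec : ∀ k : ℕ, 2 ≤ k + 1 → 4 ^ (k + 2) * Z (k + 1) = 3 ^ (2 * k + 1) * Z k + 2 := by
    intro k hk
    have h1 := hY k hk
    rw [hZ (k + 1), hZ k] at h1
    have h2 : 0 < 4 ^ k := by positivity
    apply Nat.eq_of_mul_eq_mul_left h2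
    calc 4 ^ k * (4 ^ (k + 2) * Z (k + 1)) = 4 ^ (k + 1) * (4 ^ (k + 1) * Z (k + 1)) := by ring
      _ = 3 ^ (2 * k + 1) * (4 ^ k * Z k) + 2 * 4 ^ k := h1
      _ = 4 ^ k * (3 ^ (2 * k + 1) * Z k + 2) := by ring
  have heven : ∀ k : ℕ, 2 ≤ k + 1 → ∃ W : ℕ, Z k = 2 * W := by
    intro k hk
    have h1 := hZrec k hk
    have h2 : 2 ∣ 3 ^ (2 * k + 1) * Z k := by
      have h3 : 2 ∣ 4 ^ (k + 2) * Z (k + 1) := by
        apply Dvd.dvd.mul_right
        exact dvd_pow (by norm_num) (by omega)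
      rw [h1] at h3
      exact (Nat.dvd_add_left (by norm_num)).1 h3
    have h4 : Nat.Coprime 2 (3 ^ (2 * k + 1)) := Nat.Coprime.pow_right _ (by norm_num)
    exact h4.dvd_of_dvd_mul_left h2
  have hex : ∀ k : ℕ, ∃ W : ℕ, 2 ≤ k → Z k = 2 * W := by
    intro k
    by_cases hk : 2 ≤ k
    · obtain ⟨W, hW⟩ := heven k (by omega)
      exact ⟨W, fun _ => hW⟩
    · exact ⟨0, fun h => absurd h hk⟩
  choose W hW using hex
  refine no_solution (fun k => (W k : ℤ)) (fun k hk => ?_)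
  have h1 := hZrec k (by omega)
  rw [hW (k + 1) (by omega), hW k hk] at h1
  have h2 : 4 ^ (k + 2) * W (k + 1) = 3 ^ (2 * k + 1) * W k + 1 := by
    apply Nat.eq_of_mul_eq_mul_left (by norm_num : 0 < 2)
    calc 2 * (4 ^ (k + 2) * W (k + 1)) = 4 ^ (k + 2) * (2 * W (k + 1)) := by ring
      _ = 3 ^ (2 * k + 1) * (2 * W k) + 2 := h1
      _ = 2 * (3 ^ (2 * k + 1) * W k + 1) := by ring
  exact_mod_cast h2

end Pool.Agent.Results.MP_106823_nt.SquaresDivergent
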